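import Pool.Agent.H61.HB.Stmts

/-!
# Row DIF of the board `hbg`: dependence on the data
-/

set_option autoImplicit false

namespace HB

namespace DIF

open MeasureTheory

theorem sq_nonneg' (k : Z2) : 0 ≤ sq k := by
  unfold sq
  positivity

/-- the semigroup is a contraction -/
theorem sgr_le (ν s t : ℝ) (u : V) (hν : 0 < ν) (ht : 0 ≤ t) (hu : Mem s u) :
    Mem s (sgr ν t u) ∧ nsq s (sgr ν t u) ≤ nsq s u := by
  have hle : ∀ (j : Fin 2) (k : Z2), (1 + sq k) ^ s * ‖sgr ν t u j k‖ ^ 2 ≤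
      (1 + sq k) ^ s * ‖u j k‖ ^ 2 := by
    intro j k
    have h0 : 0 ≤ (1 + sq k) ^ s := Real.rpow_nonneg (by have := sq_nonneg' k; linarith) _
    refine mul_le_mul_of_nonneg_left ?_ h0
    refine pow_le_pow_left₀ (norm_nonneg _) ?_ 2
    unfold sgr
    rw [norm_mul]
    have h1 : ‖((Real.exp (-(ν * sq k ^ 2) * t) : ℝ) : ℂ)‖ ≤ 1 := by
      rw [Complex.norm_real, Real.norm_eq_abs, abs_of_pos (Real.exp_pos _)]
      rw [Real.exp_le_one_iff]
      have : 0 ≤ ν * sq k ^ 2 * t := by positivity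
      linarith
    calc _ ≤ 1 * ‖u j k‖ := mul_le_mul_of_nonneg_right h1 (norm_nonneg _)
      _ = ‖u j k‖ := one_mul _
  have hnn : ∀ (j : Fin 2) (k : Z2), 0 ≤ (1 + sq k) ^ s * ‖sgr ν t u j k‖ ^ 2 := by
    intro j k
    have h0 : 0 ≤ (1 + sq k) ^ s := Real.rpow_nonneg (by have := sq_nonneg' k; linarith) _
    positivity
  have hm : Mem s (sgr ν t u) := fun j =>
    Summable.of_nonneg_of_le (hnn j) (hle j) (hu j)
  refine ⟨hm, ?_⟩
  unfold nsq
  refine Finset.sum_le_sum fun j _ => ?_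
  exact (hm j).tsum_le_tsum (hle j) (hu j)

variable {s T : ℝ} {u v : ℝ → V}

theorem cts_sub (hM : MMBStmt) (hu : Cts s T u) (hv : Cts s T v) :
    Cts s T (fun t => u t - v t) := by
  obtain ⟨-, -, -, m4, -, m6⟩ := hM
  refine ⟨fun t ht => (m6 s _ _ (hu.1 t ht) (hv.1 t ht)).1, fun t ht => ?_⟩
  have h1 : Filter.Tendsto (fun r => 2 * nsq s (u r - u t) + 2 * nsq s (v r - v t))
      (nhdsWithin t (Set.Icc 0 T)) (nhds 0) := by
    have := ((hu.2 t ht).const_mul 2).add ((hv.2 t ht).const_mul 2)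
    simpa using this
  refine squeeze_zero' (Filter.Eventually.of_forall fun r => m4 s _) ?_ h1
  filter_upwards [self_mem_nhdsWithin] with r hr
  have h2 := (m6 s _ _ ((m6 s _ _ (hu.1 r hr) (hu.1 t ht)).1)
    ((m6 s _ _ (hv.1 r hr) (hv.1 t ht)).1)).2.2.1
  have e : u r - v r - (u t - v t) = u r - u t - (v r - v t) := by abel
  show nsq s (u r - v r - (u t - v t)) ≤ _
  rw [e]
  exact h2

theorem duh_sub (ν t : ℝ) (A B : ℝ → V) (ht : t ∈ Set.Icc 0 T)
    (hA : ∀ j k, ContinuousOn (fun t => A t j k) (Set.Icc 0 T))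
    (hB : ∀ j k, ContinuousOn (fun t => B t j k) (Set.Icc 0 T)) :
    duh ν (fun r => A r - B r) t = duh ν A t - duh ν B t := by
  funext j k
  have hsub : Set.uIcc 0 t ⊆ Set.Icc 0 T := by
    rw [Set.uIcc_of_le ht.1]
    exact Set.Icc_subset_Icc_right ht.2
  have hexp : Continuous fun r : ℝ =>
      ((Real.exp (-(ν * sq k ^ 2) * (t - r)) : ℝ) : ℂ) := by fun_prop
  show ∫ r in (0 : ℝ)..t, ((Real.exp (-(ν * sq k ^ 2) * (t - r)) : ℝ) : ℂ) * (A r - B r) j k =
    (∫ r in (0 : ℝ)..t, ((Real.exp (-(ν * sq k ^ 2) * (t - r)) : ℝ) : ℂ) * A r j k) -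
      ∫ r in (0 : ℝ)..t, ((Real.exp (-(ν * sq k ^ 2) * (t - r)) : ℝ) : ℂ) * B r j k
  rw [← intervalIntegral.integral_sub]
  · refine intervalIntegral.integral_congr fun r _ => ?_
    show _ * (A r j k - B r j k) = _
    ring
  · exact (hexp.continuousOn.mul ((hA j k).mono hsub)).intervalIntegrable
  · exact (hexp.continuousOn.mul ((hB j k).mono hsub)).intervalIntegrable

theorem adv_sub (hL : LINStmt) (u v : V) (hu : Mem 2 u) (hv : Mem 2 v) (j : Fin 2) :
    (adv u u - adv v v) j = dot (u - v) (u j) + dot v (u j - v j) := by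
  obtain ⟨l1, l2, -, -⟩ := hL
  rw [l1 u v (u j) hu hv (hu j), l2 v (u j) (v j) hv (hu j) (hv j)]
  show dot u (u j) - dot v (v j) = _
  abel

theorem nqS_le (hM : MMBStmt) (u : V) (j : Fin 2) : nqS s (u j) ≤ nsq s u := by
  unfold nsq
  exact Finset.single_le_sum (fun i _ => hM.1 s (u i)) (Finset.mem_univ j)

end DIF

open DIF in
theorem dif_thm (hMl : MLDStmt) (hD : DUBStmt) (hB : BILStmt) (hL : LINStmt) (hA : ADCStmt)
    (hC : CONStmt) (hG : GRWStmt) (hM : MMBStmt) : DIFStmt := by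
  intro ν s T R hν hs hT hR
  obtain ⟨C, hC0, hBC⟩ := hB s hs
  have hTν : 0 ≤ T + 2 / ν := by positivity
  set β : ℝ := 24 * C * R * (T + 2 / ν) with hβ
  have hβ0 : 0 ≤ β := by positivity
  refine ⟨2 * Real.exp (β * T), by positivity, ?_⟩
  intro T' hT' u v hu hv hR' t ht
  have hT'0 : 0 ≤ T' := hT'.1
  have hT'T : T' ≤ T := hT'.2
  obtain ⟨m1, m2, m3, m4, m5, m6⟩ := hM
  have hM : MMBStmt := ⟨m1, m2, m3, m4, m5, m6⟩
  obtain ⟨hcu, hmu⟩ := (hMl ν s T' u hν hs hT'0).1 hu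
  obtain ⟨hcv, hmv⟩ := (hMl ν s T' v hν hs hT'0).1 hv
  have hau := hA s T' u hs hcu
  have hav := hA s T' v hs hcv
  have hcw : Cts s T' (fun t => u t - v t) := cts_sub hM hcu hcv
  have hcG : Cts (s - 2) T' (fun t => adv (u t) (u t) - adv (v t) (v t)) := cts_sub hM hau hav
  obtain ⟨-, hφc⟩ := hC s T' _ hcw
  obtain ⟨-, hGc⟩ := hC (s - 2) T' _ hcG
  -- the bilinear estimate
  have hbil : ∀ r ∈ Set.Icc 0 T', nsq (s - 2) (adv (u r) (u r) - adv (v r) (v r)) ≤
      12 * C * R * nsq s (u r - v r) := by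
    intro r hr
    have hu1 := hcu.1 r hr
    have hv1 := hcv.1 r hr
    obtain ⟨hRu, hRv⟩ := hR' r hr
    obtain ⟨hu2, hu2'⟩ := m5 2 s _ hs hu1
    obtain ⟨hv2, hv2'⟩ := m5 2 s _ hs hv1
    have hw1 : Mem s (u r - v r) := (m6 s _ _ hu1 hv1).1
    obtain ⟨hw2, hw2'⟩ := m5 2 s _ hs hw1
    set D := nsq s (u r - v r) with hDdef
    have hD0 : 0 ≤ D := m4 s _
    have hj : ∀ j : Fin 2, nqS (s - 2) ((adv (u r) (u r) - adv (v r) (v r)) j) ≤
        4 * C * R * D + 4 * C * R * nqS s ((u r - v r) j) := by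
      intro j
      rw [adv_sub hL _ _ hu2 hv2]
      obtain ⟨-, ha1, ha2⟩ := hBC (u r - v r) (u r j) hw1 (hu1 j)
      obtain ⟨-, hb1, hb2⟩ := hBC (v r) (u r j - v r j) hv1 (hw1 j)
      have h1 := (m3 (s - 2) _ _ ha1 hb1).2.2.2
      have c1 : nqS s (u r j) ≤ R := (nqS_le hM (u r) j).trans hRu
      have c2 : nqS 2 (u r j) ≤ R := (m2 2 s _ hs (hu1 j)).2.trans c1
      have c3 : nsq 2 (v r) ≤ R := hv2'.trans hRv
      have c4 : nqS 2 (u r j - v r j) ≤ nqS s (u r j - v r j) := (m2 2 s _ hs (hw1 j)).2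
      have e0 : 0 ≤ nqS s (u r j - v r j) := m1 _ _
      have e1 : 0 ≤ nqS 2 (u r j) := m1 _ _
      have e2 : 0 ≤ nqS s (u r j) := m1 _ _
      have e3 : 0 ≤ nsq 2 (u r - v r) := m4 _ _
      have e4 : 0 ≤ nsq s (v r) := m4 _ _
      have e5 : 0 ≤ nsq 2 (v r) := m4 _ _
      have e6 : 0 ≤ nqS 2 (u r j - v r j) := m1 _ _
      have d1 : nsq s (u r - v r) * nqS 2 (u r j) + nsq 2 (u r - v r) * nqS s (u r j) ≤
          2 * (R * D) := by
        have f1 : D * nqS 2 (u r j) ≤ D * R := mul_le_mul_of_nonneg_left c2 hD0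
        have f2 : nsq 2 (u r - v r) * nqS s (u r j) ≤ D * R := mul_le_mul hw2' c1 e2 hD0
        linarith
      have d2 : nsq s (v r) * nqS 2 (u r j - v r j) + nsq 2 (v r) * nqS s (u r j - v r j) ≤
          2 * (R * nqS s (u r j - v r j)) := by
        have f1 : nsq s (v r) * nqS 2 (u r j - v r j) ≤ R * nqS s (u r j - v r j) :=
          mul_le_mul hRv c4 e6 hR
        have f2 : nsq 2 (v r) * nqS s (u r j - v r j) ≤ R * nqS s (u r j - v r j) :=
          mul_le_mul_of_nonneg_right c3 e0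
        linarith
      have g1 := mul_le_mul_of_nonneg_left d1 hC0.le
      have g2 := mul_le_mul_of_nonneg_left d2 hC0.le
      have e7 : nqS s ((u r - v r) j) = nqS s (u r j - v r j) := rfl
      rw [e7]
      nlinarith [ha2, hb2, h1]
    have h2 : nsq (s - 2) (adv (u r) (u r) - adv (v r) (v r)) =
        ∑ j, nqS (s - 2) ((adv (u r) (u r) - adv (v r) (v r)) j) := rfl
    have h3 : D = ∑ j, nqS s ((u r - v r) j) := rfl
    rw [h2]
    calc _ ≤ ∑ j : Fin 2, (4 * C * R * D + 4 * C * R * nqS s ((u r - v r) j)) :=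
          Finset.sum_le_sum fun j _ => hj j
      _ = 2 * (4 * C * R * D) + 4 * C * R * ∑ j, nqS s ((u r - v r) j) := by
          rw [Finset.sum_add_distrib, Finset.mul_sum]
          simp
      _ = 12 * C * R * D := by
          rw [← h3]
          ring
  -- the integral inequality
  have hint : ∀ t ∈ Set.Icc 0 T', nsq s (u t - v t) ≤ 2 * nsq s (u 0 - v 0) +
      ∫ r in (0 : ℝ)..t, β * nsq s (u r - v r) := by
    intro t ht
    have h0 : (0 : ℝ) ∈ Set.Icc 0 T' := ⟨le_rfl, hT'0⟩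
    have hw0 : Mem s (u 0 - v 0) := hcw.1 0 h0
    obtain ⟨hs1, hs2⟩ := sgr_le ν s t (u 0 - v 0) hν ht.1 hw0
    obtain ⟨hd1, hd2⟩ := hD ν s T' _ hν hT'0 hcG t ht
    have e : u t - v t = sgr ν t (u 0 - v 0) -
        duh ν (fun t => adv (u t) (u t) - adv (v t) (v t)) t := by
      rw [duh_sub ν t _ _ ht (hC (s - 2) T' _ hau).1 (hC (s - 2) T' _ hav).1, hmu t ht, hmv t ht]
      have e2 : sgr ν t (u 0 - v 0) = sgr ν t (u 0) - sgr ν t (v 0) := by
        funext j k
        show _ * (u 0 j k - v 0 j k) = _ * u 0 j k - _ * v 0 j k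
        ring
      rw [e2]
      abel
    have h1 := (m6 s _ _ hs1 hd1).2.2.1
    rw [← e] at h1
    have hsub : Set.Icc 0 t ⊆ Set.Icc 0 T' := Set.Icc_subset_Icc_right ht.2
    have i1 : IntervalIntegrable (fun r => nsq (s - 2) (adv (u r) (u r) - adv (v r) (v r)))
        MeasureTheory.volume 0 t := by
      apply ContinuousOn.intervalIntegrable
      rw [Set.uIcc_of_le ht.1]
      exact hGc.mono hsub
    have i2 : IntervalIntegrable (fun r => 12 * C * R * nsq s (u r - v r))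
        MeasureTheory.volume 0 t := by
      apply ContinuousOn.intervalIntegrable
      rw [Set.uIcc_of_le ht.1]
      exact (hφc.mono hsub).const_mul _
    have h2 : ∫ r in (0 : ℝ)..t, nsq (s - 2) (adv (u r) (u r) - adv (v r) (v r)) ≤
        ∫ r in (0 : ℝ)..t, 12 * C * R * nsq s (u r - v r) :=
      intervalIntegral.integral_mono_on ht.1 i1 i2 fun r hr => hbil r (hsub hr)
    have h3 : (0 : ℝ) ≤ ∫ r in (0 : ℝ)..t, nsq s (u r - v r) :=
      intervalIntegral.integral_nonneg ht.1 fun r _ => m4 s _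
    rw [intervalIntegral.integral_const_mul] at h2
    rw [intervalIntegral.integral_const_mul]
    have hTT : 0 ≤ T' + 2 / ν := by positivity
    have h4 := mul_le_mul_of_nonneg_left h2 hTT
    have h5 : (T' + 2 / ν) * (12 * C * R * ∫ r in (0 : ℝ)..t, nsq s (u r - v r)) ≤
        (T + 2 / ν) * (12 * C * R * ∫ r in (0 : ℝ)..t, nsq s (u r - v r)) := by
      refine mul_le_mul_of_nonneg_right (by linarith) ?_
      positivity
    have h6 : β * ∫ r in (0 : ℝ)..t, nsq s (u r - v r) =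
        2 * ((T + 2 / ν) * (12 * C * R * ∫ r in (0 : ℝ)..t, nsq s (u r - v r))) := by
      rw [hβ]
      ring
    rw [h6]
    linarith
  have h1 := hG T' (2 * nsq s (u 0 - v 0)) (fun t => nsq s (u t - v t)) (fun _ => β) hT'0 hφc
    continuousOn_const (fun _ _ => hβ0) hint t ht
  rw [intervalIntegral.integral_const, sub_zero, smul_eq_mul] at h1
  have h2 : Real.exp (t * β) ≤ Real.exp (β * T) := by
    apply Real.exp_le_exp.2
    have : t ≤ T := ht.2.trans hT'T
    nlinarith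
  have h3 : 0 ≤ nsq s (u 0 - v 0) := m4 s _
  calc nsq s (u t - v t) ≤ 2 * nsq s (u 0 - v 0) * Real.exp (t * β) := h1
    _ ≤ 2 * nsq s (u 0 - v 0) * Real.exp (β * T) :=
        mul_le_mul_of_nonneg_left h2 (by positivity)
    _ = 2 * Real.exp (β * T) * nsq s (u 0 - v 0) := by ring

end HB
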