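import Pool.Agent.H61.HB.Stmts4
import Pool.Agent.H23.HB.GRF

/-!
Project HB, board fnd, row IGA.
-/

set_option autoImplicit false

namespace HB

theorem iga_grS (a b : ℝ) (f g : Z2 → ℂ) (hf : Summable fun k => sq k * ‖f k‖ ^ 2)
    (hg : Summable fun k => sq k * ‖g k‖ ^ 2) :
    grS (fun k => (a : ℂ) * f k + (b : ℂ) * g k) ≤ 2 * a ^ 2 * grS f + 2 * b ^ 2 * grS g := by
  have h1 : ∀ k, sq k * ‖(a : ℂ) * f k + (b : ℂ) * g k‖ ^ 2 ≤
      2 * a ^ 2 * (sq k * ‖f k‖ ^ 2) + 2 * b ^ 2 * (sq k * ‖g k‖ ^ 2) := by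
    intro k
    have h2 : ‖(a : ℂ) * f k + (b : ℂ) * g k‖ ≤ |a| * ‖f k‖ + |b| * ‖g k‖ := by
      refine (norm_add_le _ _).trans (le_of_eq ?_)
      rw [norm_mul, norm_mul, Complex.norm_real, Complex.norm_real, Real.norm_eq_abs,
        Real.norm_eq_abs]
    have h4 : ‖(a : ℂ) * f k + (b : ℂ) * g k‖ ^ 2 ≤ (|a| * ‖f k‖ + |b| * ‖g k‖) ^ 2 := by
      gcongr
    have h3 : ‖(a : ℂ) * f k + (b : ℂ) * g k‖ ^ 2 ≤
        2 * a ^ 2 * ‖f k‖ ^ 2 + 2 * b ^ 2 * ‖g k‖ ^ 2 := by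
      have h5 : (|a| * ‖f k‖) ^ 2 = a ^ 2 * ‖f k‖ ^ 2 := by rw [mul_pow, sq_abs]
      have h6 : (|b| * ‖g k‖) ^ 2 = b ^ 2 * ‖g k‖ ^ 2 := by rw [mul_pow, sq_abs]
      nlinarith [sq_nonneg (|a| * ‖f k‖ - |b| * ‖g k‖)]
    have h7 := mul_le_mul_of_nonneg_left h3 (GRF.sq_nonneg' k)
    calc _ ≤ _ := h7
      _ = _ := by ring
  have h2 : Summable fun k => 2 * a ^ 2 * (sq k * ‖f k‖ ^ 2) + 2 * b ^ 2 * (sq k * ‖g k‖ ^ 2) :=
    (hf.mul_left _).add (hg.mul_left _)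
  have h3 : Summable fun k => sq k * ‖(a : ℂ) * f k + (b : ℂ) * g k‖ ^ 2 :=
    h2.of_nonneg_of_le (fun k => mul_nonneg (GRF.sq_nonneg' k) (by positivity)) h1
  have h4 := h3.tsum_le_tsum h1 h2
  rw [Summable.tsum_add (hf.mul_left _) (hg.mul_left _), tsum_mul_left, tsum_mul_left] at h4
  exact h4

theorem iga_int (c T : ℝ) (hc : 0 < c) : ∫ r in (0 : ℝ)..T, Real.exp (-c * r) ≤ 1 / c := by
  have h : ∀ x ∈ Set.uIcc 0 T,
      HasDerivAt (fun r => -(1 / c) * Real.exp (-c * r)) (Real.exp (-c * x)) x := by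
    intro x _
    have h1 : HasDerivAt (fun r : ℝ => -c * r) (-c) x := by
      simpa using (hasDerivAt_id x).const_mul (-c)
    have h2 := (h1.exp).const_mul (-(1 / c))
    have h3 : -(1 / c) * (Real.exp (-c * x) * -c) = Real.exp (-c * x) := by
      have h4 : 1 / c * c = 1 := one_div_mul_cancel hc.ne'
      linear_combination (Real.exp (-c * x)) * h4
    rw [h3] at h2
    exact h2
  have h5 : Continuous fun r : ℝ => Real.exp (-c * r) := by fun_prop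
  rw [intervalIntegral.integral_eq_sub_of_hasDerivAt h (h5.intervalIntegrable _ _)]
  simp only [mul_zero, Real.exp_zero, mul_one]
  have h3 := Real.exp_pos (-c * T)
  have h4 : 0 < 1 / c := by positivity
  nlinarith

theorem iga_thm (h1 : FSBStmt) (h2 : FSAStmt) : IGAStmt := by
  intro ν M p n hν hM hp hn
  obtain ⟨_, hmem, _⟩ := h1
  have hp2 : Mem 2 p := hmem M 2 p hp
  have hW : Fs ((n : ℝ) ^ 2 + M) (osc ν p ((n : ℤ) ^ 2)) := (h2 ν M p n 0 hM hp).2.2.1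
  have hW2 : Mem 2 (osc ν p ((n : ℤ) ^ 2)) := hmem _ 2 _ hW
  have hg0 : ∀ u : V, 0 ≤ grd u := fun u => Finset.sum_nonneg fun j _ =>
    tsum_nonneg fun k => mul_nonneg (GRF.sq_nonneg' k) (by positivity)
  have hc : 0 < ν * (n : ℝ) ^ 8 := by
    have : (0 : ℝ) < n := by exact_mod_cast hn
    positivity
  set B : ℝ := 2 * grd p + 2 * (n : ℝ) ^ 6 * grd (osc ν p ((n : ℤ) ^ 2)) with hB
  have hB0 : 0 ≤ B := by
    have h3 := hg0 p
    have h4 := hg0 (osc ν p ((n : ℤ) ^ 2))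
    positivity
  have hbd : ∀ θ : ℝ, 0 ≤ θ → θ ≤ 1 → grd (apx ν p n θ) ≤ B * θ := by
    intro θ h3 h4
    have h5 : ∀ j : Fin 2, grS (apx ν p n θ j) ≤ 2 * (θ ^ 2) ^ 2 * grS (p j) +
        2 * ((n : ℝ) ^ 3 * θ) ^ 2 * grS (osc ν p ((n : ℤ) ^ 2) j) := fun j =>
      iga_grS (θ ^ 2) ((n : ℝ) ^ 3 * θ) (p j) (osc ν p ((n : ℤ) ^ 2) j) (GRF.sum1 (hp2 j))
        (GRF.sum1 (hW2 j))
    have h6 : grd (apx ν p n θ) ≤ 2 * (θ ^ 2) ^ 2 * grd p +
        2 * ((n : ℝ) ^ 3 * θ) ^ 2 * grd (osc ν p ((n : ℤ) ^ 2)) := by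
      unfold grd
      rw [Finset.mul_sum, Finset.mul_sum, ← Finset.sum_add_distrib]
      exact Finset.sum_le_sum fun j _ => h5 j
    have h7 : θ ^ 2 ≤ θ := by nlinarith
    have h8 : (θ ^ 2) ^ 2 ≤ θ := by nlinarith [sq_nonneg θ]
    have h9 : 2 * (θ ^ 2) ^ 2 * grd p ≤ 2 * θ * grd p := by
      have := hg0 p
      gcongr
    have h10 : 2 * ((n : ℝ) ^ 3 * θ) ^ 2 * grd (osc ν p ((n : ℤ) ^ 2)) ≤
        2 * ((n : ℝ) ^ 6 * θ) * grd (osc ν p ((n : ℤ) ^ 2)) := by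
      have h11 := hg0 (osc ν p ((n : ℤ) ^ 2))
      have h12 : ((n : ℝ) ^ 3 * θ) ^ 2 = (n : ℝ) ^ 6 * θ ^ 2 := by ring
      rw [h12]
      gcongr
    calc _ ≤ _ := h6
      _ ≤ 2 * θ * grd p + 2 * ((n : ℝ) ^ 6 * θ) * grd (osc ν p ((n : ℤ) ^ 2)) :=
        add_le_add h9 h10
      _ = B * θ := by rw [hB]; ring
  refine ⟨B * (1 / (ν * (n : ℝ) ^ 8)), by positivity, fun T hT => ?_⟩
  by_cases hI : IntervalIntegrable (fun r => grd (apx ν p n (tht ν n r))) MeasureTheory.volume 0 T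
  · have h5 : Continuous fun r : ℝ => B * Real.exp (-(ν * (n : ℝ) ^ 8) * r) := by fun_prop
    have h6 : ∫ r in (0 : ℝ)..T, grd (apx ν p n (tht ν n r)) ≤
        ∫ r in (0 : ℝ)..T, B * Real.exp (-(ν * (n : ℝ) ^ 8) * r) := by
      refine intervalIntegral.integral_mono_on hT hI (h5.intervalIntegrable _ _) fun r hr => ?_
      refine hbd _ (Real.exp_pos _).le ?_
      unfold tht
      rw [Real.exp_le_one_iff]
      have h7 := hr.1
      nlinarith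
    refine h6.trans ?_
    rw [intervalIntegral.integral_const_mul]
    exact mul_le_mul_of_nonneg_left (iga_int _ T hc) hB0
  · rw [intervalIntegral.integral_undef hI]
    positivity

end HB
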