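import Pool.Agent.H61.HB.Stmts3

/-!
# Row SCA of the board `hbg`: scaling
-/

set_option autoImplicit false

namespace HB

namespace SCA

/-- multiplication of frequencies by `n` -/
def e (n : ℕ) (k : Z2) : Z2 := ((n : ℤ) * k.1, (n : ℤ) * k.2)

theorem e_inj {n : ℕ} (hn : 1 ≤ n) : Function.Injective (e n) := by
  intro k l h
  have hn0 : (n : ℤ) ≠ 0 := by exact_mod_cast (by omega : n ≠ 0)
  have h1 : (n : ℤ) * k.1 = n * l.1 := congrArg Prod.fst h
  have h2 : (n : ℤ) * k.2 = n * l.2 := congrArg Prod.snd h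
  exact Prod.ext (mul_left_cancel₀ hn0 h1) (mul_left_cancel₀ hn0 h2)

theorem mem_range {n : ℕ} (k : Z2) :
    k ∈ Set.range (e n) ↔ (n : ℤ) ∣ k.1 ∧ (n : ℤ) ∣ k.2 := by
  constructor
  · rintro ⟨l, rfl⟩
    exact ⟨dvd_mul_right _ _, dvd_mul_right _ _⟩
  · rintro ⟨⟨a, ha⟩, ⟨b, hb⟩⟩
    exact ⟨(a, b), Prod.ext ha.symm hb.symm⟩

theorem e_zero (n : ℕ) : e n 0 = 0 := by
  unfold e
  simp

theorem e_neg (n : ℕ) (k : Z2) : e n (-k) = -e n k := by
  unfold e
  ext <;> simp

theorem e_sub (n : ℕ) (k l : Z2) : e n (k - l) = e n k - e n l := by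
  unfold e
  ext <;> simp [mul_sub]

theorem e_ne_zero {n : ℕ} (hn : 1 ≤ n) {k : Z2} (hk : k ≠ 0) : e n k ≠ 0 := by
  intro h
  rw [← e_zero n] at h
  exact hk (e_inj hn h)

theorem sq_e (n : ℕ) (k : Z2) : sq (e n k) = (n : ℝ) ^ 2 * sq k := by
  unfold sq e
  push_cast
  ring

theorem co_e (n : ℕ) (i : Fin 2) (k : Z2) : co i (e n k) = (n : ℝ) * co i k := by
  unfold co e
  split_ifs <;> push_cast <;> ring

theorem scl_e {n : ℕ} (hn : 1 ≤ n) (U : V) (j : Fin 2) (k : Z2) :
    scl n U j (e n k) = (n : ℂ) ^ 3 * U j k := by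
  have hn0 : (n : ℤ) ≠ 0 := by exact_mod_cast (by omega : n ≠ 0)
  unfold scl e
  simp only [dvd_mul_right, and_self, if_true]
  rw [Int.mul_ediv_cancel_left _ hn0, Int.mul_ediv_cancel_left _ hn0]

theorem scl_off {n : ℕ} (U : V) (j : Fin 2) {k : Z2} (hk : k ∉ Set.range (e n)) :
    scl n U j k = 0 := by
  unfold scl
  rw [if_neg (fun h => hk ((mem_range k).2 h))]

theorem sq_nonneg' (k : Z2) : 0 ≤ sq k := by
  unfold sq
  positivity

theorem off_e {n : ℕ} (hn : 1 ≤ n) (f : Z2 → ℂ) (k : Z2) :
    off f (e n k) = off (fun k => f (e n k)) k := by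
  unfold off
  by_cases hk : k = 0
  · rw [if_pos hk, hk, e_zero, if_pos rfl]
  · rw [if_neg hk, if_neg (e_ne_zero hn hk)]

theorem n_pow_ne {n : ℕ} (hn : 1 ≤ n) (m : ℕ) : ((n : ℂ) ^ m) ≠ 0 :=
  pow_ne_zero _ (by exact_mod_cast (by omega : n ≠ 0))

theorem conj_npow (n m : ℕ) : (starRingEnd ℂ) ((n : ℂ) ^ m) = (n : ℂ) ^ m := by
  rw [map_pow, map_natCast]

end SCA

open SCA in
theorem sca_thm : SCAStmt := by
  intro n hn
  have hn0 : (0 : ℝ) < n := by exact_mod_cast hn
  have hn1 : (1 : ℝ) ≤ n := by exact_mod_cast hn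
  have hnC : (n : ℂ) ≠ 0 := by exact_mod_cast (by omega : n ≠ 0)
  have hnorm : ‖(n : ℂ) ^ 3‖ = (n : ℝ) ^ 3 := by rw [norm_pow, Complex.norm_natCast]
  refine ⟨?_, ?_, ?_, ?_⟩
  · intro u hu
    set U : V := fun j k => u j (e n k) / (n : ℂ) ^ 3 with hU
    have hsc : ∀ j k, u j (e n k) = (n : ℂ) ^ 3 * U j k := by
      intro j k
      rw [hU]
      simp only
      rw [mul_div_cancel₀ _ (n_pow_ne hn 3)]
    refine ⟨U, ?_, ?_, ?_, ?_⟩
    · funext j k
      by_cases hk : k ∈ Set.range (e n)
      · obtain ⟨l, rfl⟩ := hk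
        rw [scl_e hn, ← hsc]
      · rw [scl_off U j hk, hu j k (fun h => hk ((mem_range k).2 h))]
    · intro hR j k
      show u j (e n (-k)) / (n : ℂ) ^ 3 = (starRingEnd ℂ) (u j (e n k) / (n : ℂ) ^ 3)
      rw [e_neg, hR, map_div₀, conj_npow]
    · intro s hs hM j
      have h1 : Summable ((fun k => (1 + sq k) ^ s * ‖u j k‖ ^ 2) ∘ e n) :=
        (hM j).comp_injective (e_inj hn)
      refine Summable.of_nonneg_of_le (fun k => ?_) (fun k => ?_) h1
      · have := sq_nonneg' k
        positivity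
      · have h0 := sq_nonneg' k
        have h2 : ‖U j k‖ ≤ ‖u j (e n k)‖ := by
          rw [hsc, norm_mul, hnorm]
          have : (1 : ℝ) ≤ (n : ℝ) ^ 3 := one_le_pow₀ hn1
          nlinarith [norm_nonneg (U j k)]
        have h3 : (1 + sq k) ^ s ≤ (1 + sq (e n k)) ^ s := by
          refine Real.rpow_le_rpow (by linarith) ?_ hs
          rw [sq_e]
          have : (1 : ℝ) ≤ (n : ℝ) ^ 2 := one_le_pow₀ hn1
          nlinarith
        have h4 : ‖U j k‖ ^ 2 ≤ ‖u j (e n k)‖ ^ 2 := pow_le_pow_left₀ (norm_nonneg _) h2 2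
        have h5 : 0 ≤ (1 + sq (e n k)) ^ s := Real.rpow_nonneg
          (by have := sq_nonneg' (e n k); linarith) _
        exact mul_le_mul h3 h4 (by positivity) h5
    · unfold hm
      rw [Finset.mul_sum]
      refine Finset.sum_congr rfl fun j _ => ?_
      unfold hmS
      rw [← (e_inj hn).tsum_eq (f := fun k => ‖off (u j) k‖ ^ 2 / sq k), ← tsum_mul_left]
      · refine tsum_congr fun k => ?_
        rw [sq_e, off_e hn]
        by_cases hk : k = 0
        · simp [off, hk]
        · unfold off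
          rw [if_neg hk, if_neg hk]
          show ‖u j (e n k)‖ ^ 2 / ((n : ℝ) ^ 2 * sq k) = _
          rw [hsc, norm_mul, hnorm]
          by_cases hs0 : sq k = 0
          · rw [hs0]
            simp
          · field_simp
      · intro k hk
        by_contra hc
        apply hk
        show ‖off (u j) k‖ ^ 2 / sq k = 0
        have h1 : off (u j) k = 0 := by
          unfold off
          split_ifs
          · rfl
          · exact hu j k (fun h => hc ((mem_range k).2 h))
        rw [h1]
        simp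
  · intro U
    refine ⟨?_, ?_, ?_⟩
    · intro hR j k
      by_cases hk : k ∈ Set.range (e n)
      · obtain ⟨l, rfl⟩ := hk
        rw [← e_neg, scl_e hn, scl_e hn, hR, map_mul, conj_npow]
      · have hk' : -k ∉ Set.range (e n) := by
          rintro ⟨l, hl⟩
          apply hk
          exact ⟨-l, by rw [e_neg, hl, neg_neg]⟩
        rw [scl_off U j hk, scl_off U j hk', map_zero]
    · unfold flu
      rw [Finset.mul_sum]
      refine Finset.sum_congr rfl fun j _ => ?_
      unfold flS
      rw [← (e_inj hn).tsum_eq (f := fun k => ‖off (scl n U j) k‖ ^ 2), ← tsum_mul_left]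
      · refine tsum_congr fun k => ?_
        rw [off_e hn]
        by_cases hk : k = 0
        · simp [off, hk]
        · unfold off
          rw [if_neg hk, if_neg hk]
          show ‖scl n U j (e n k)‖ ^ 2 = _
          rw [scl_e hn, norm_mul, hnorm]
          ring
      · intro k hk
        by_contra hc
        apply hk
        show ‖off (scl n U j) k‖ ^ 2 = 0
        have h1 : off (scl n U j) k = 0 := by
          unfold off
          split_ifs
          · rfl
          · exact scl_off U j hc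
        rw [h1]
        simp
    · intro s hs hM
      have hle : ∀ (j : Fin 2) (k : Z2), (1 + sq (e n k)) ^ s * ‖scl n U j (e n k)‖ ^ 2 ≤
          (n : ℝ) ^ (2 * s + 6) * ((1 + sq k) ^ s * ‖U j k‖ ^ 2) := by
        intro j k
        have h0 := sq_nonneg' k
        rw [scl_e hn, norm_mul, hnorm, sq_e]
        have h1 : (1 + (n : ℝ) ^ 2 * sq k) ^ s ≤ ((n : ℝ) ^ 2 * (1 + sq k)) ^ s := by
          refine Real.rpow_le_rpow (by positivity) ?_ hs
          have : (1 : ℝ) ≤ (n : ℝ) ^ 2 := one_le_pow₀ hn1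
          nlinarith
        rw [Real.mul_rpow (by positivity) (by positivity)] at h1
        have h2 : ((n : ℝ) ^ 2) ^ s = (n : ℝ) ^ (2 * s) := by
          rw [← Real.rpow_natCast (n : ℝ) 2, ← Real.rpow_mul hn0.le]
          norm_num
        have h3 : (n : ℝ) ^ (2 * s + 6) = (n : ℝ) ^ (2 * s) * (n : ℝ) ^ 6 := by
          rw [Real.rpow_add hn0]
          norm_num
        rw [h3]
        rw [h2] at h1
        have h4 : 0 ≤ ((n : ℝ) ^ 3 * ‖U j k‖) ^ 2 := by positivity
        calc (1 + (n : ℝ) ^ 2 * sq k) ^ s * ((n : ℝ) ^ 3 * ‖U j k‖) ^ 2 ≤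
              ((n : ℝ) ^ (2 * s) * (1 + sq k) ^ s) * ((n : ℝ) ^ 3 * ‖U j k‖) ^ 2 :=
              mul_le_mul_of_nonneg_right h1 h4
          _ = _ := by ring
      have hz : ∀ (j : Fin 2) (k : Z2), k ∉ Set.range (e n) →
          (1 + sq k) ^ s * ‖scl n U j k‖ ^ 2 = 0 := by
        intro j k hk
        rw [scl_off U j hk]
        simp
      have hsm : ∀ j : Fin 2, Summable ((fun k => (1 + sq k) ^ s * ‖scl n U j k‖ ^ 2) ∘ e n) := by
        intro j
        refine Summable.of_nonneg_of_le (fun k => ?_) (fun k => hle j k)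
          ((hM j).mul_left ((n : ℝ) ^ (2 * s + 6)))
        have := sq_nonneg' (e n k)
        show 0 ≤ (1 + sq (e n k)) ^ s * ‖scl n U j (e n k)‖ ^ 2
        positivity
      refine ⟨fun j => ((e_inj hn).summable_iff (fun k hk => hz j k hk)).1 (hsm j), ?_⟩
      unfold nsq
      rw [Finset.mul_sum]
      refine Finset.sum_le_sum fun j _ => ?_
      unfold nqS
      rw [← (e_inj hn).tsum_eq (f := fun k => (1 + sq k) ^ s * ‖scl n U j k‖ ^ 2),
        ← tsum_mul_left]
      · exact (hsm j).tsum_le_tsum (hle j) ((hM j).mul_left _)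
      · intro k hk
        by_contra hc
        exact hk (hz j k hc)
  · intro U W
    funext j k
    by_cases hk : k ∈ Set.range (e n)
    · obtain ⟨l, rfl⟩ := hk
      show scl n (U - W) j (e n l) = scl n U j (e n l) - scl n W j (e n l)
      rw [scl_e hn, scl_e hn, scl_e hn]
      show (n : ℂ) ^ 3 * (U j l - W j l) = _
      ring
    · show scl n (U - W) j k = scl n U j k - scl n W j k
      rw [scl_off _ j hk, scl_off _ j hk, scl_off _ j hk, sub_zero]
  · intro U
    funext j k
    unfold adv dot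
    by_cases hk : k ∈ Set.range (e n)
    · obtain ⟨m, rfl⟩ := hk
      rw [scl_e hn, ← (e_inj hn).tsum_eq (f := fun l => trm (scl n U) (scl n U j) (e n m) l)]
      · show ∑' l, trm (scl n U) (scl n U j) (e n m) (e n l) =
          (n : ℂ) ^ 4 * ((n : ℂ) ^ 3 * ∑' l, trm U (U j) m l)
        rw [← tsum_mul_left, ← tsum_mul_left]
        refine tsum_congr fun l => ?_
        unfold trm
        rw [← e_sub, Finset.mul_sum, Finset.mul_sum]
        refine Finset.sum_congr rfl fun i _ => ?_
        rw [scl_e hn, scl_e hn, co_e]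
        push_cast
        ring
      · intro l hl
        by_contra hc
        apply hl
        show trm (scl n U) (scl n U j) (e n m) l = 0
        unfold trm
        refine Finset.sum_eq_zero fun i _ => ?_
        rw [scl_off U i hc]
        ring
    · rw [scl_off _ j hk, mul_zero]
      have h0 : ∀ l, trm (scl n U) (scl n U j) k l = 0 := by
        intro l
        unfold trm
        refine Finset.sum_eq_zero fun i _ => ?_
        by_cases hl : l ∈ Set.range (e n)
        · have hkl : k - l ∉ Set.range (e n) := by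
            rintro ⟨x, hx⟩
            obtain ⟨y, rfl⟩ := hl
            apply hk
            refine ⟨x + y, ?_⟩
            have h1 : e n (x + y) = e n x + e n y := by
              unfold e
              ext <;> simp [mul_add]
            rw [h1, hx]
            abel
          rw [scl_off U j hkl, mul_zero]
        · rw [scl_off U i hl]
          ring
      simp [h0]

end HB
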