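import Pool.Agent.H61.HB.Stmts2
import Pool.Agent.H93.HB.GRW

/-!
# Row STW of the board `hbg`: stability in `H^(-1)`
-/

set_option autoImplicit false

namespace HB

namespace STW

open GR

theorem sq_nonneg' (k : Z2) : 0 ≤ sq k := by
  unfold sq
  positivity

theorem hm_nonneg (u : V) : 0 ≤ hm u := by
  unfold hm hmS
  refine Finset.sum_nonneg fun j _ => tsum_nonneg fun k => ?_
  have := sq_nonneg' k
  positivity

theorem grd_nonneg (u : V) : 0 ≤ grd u := by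
  unfold grd grS
  refine Finset.sum_nonneg fun j _ => tsum_nonneg fun k => ?_
  have := sq_nonneg' k
  positivity

theorem mu_nonneg (u : V) : 0 ≤ mu u := by
  unfold mu
  positivity

theorem anti' {a : ℝ} (g g' : ℝ → ℝ) (hc : ContinuousOn g (Set.Icc 0 a))
    (hg : ∀ t ∈ Set.Ioo 0 a, HasDerivAt g (g' t) t) (h : ∀ t ∈ Set.Ioo 0 a, g' t ≤ 0) :
    ∀ t ∈ Set.Icc 0 a, g t ≤ g 0 := by
  intro t ht
  have hA : AntitoneOn g (Set.Icc 0 a) := by
    refine antitoneOn_of_deriv_nonpos (convex_Icc 0 a) hc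
      (fun x hx => ?_) (fun x hx => ?_)
    · rw [interior_Icc] at hx
      exact (hg x hx).differentiableAt.differentiableWithinAt
    · rw [interior_Icc] at hx
      rw [(hg x hx).deriv]
      exact h x hx
  exact hA ⟨le_rfl, ht.1.trans ht.2⟩ ht ht.1

end STW

open GR STW in
theorem stw_thm (hN : NEIStmt) (hG : GRCStmt) : STWStmt := by
  obtain ⟨C, c, hC, hc, hNE⟩ := hN
  refine ⟨C, c, hC, hc, ?_⟩
  intro ν s T L u v hν hs hT hu hv hR hL hsmall
  obtain ⟨g1, g2, -, g4, g5, g6⟩ := hG ν s T u v hs hu hv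
  set Y : ℝ → ℝ := fun r => hm (v r - u r) + mu (v r - u r) with hY
  set Q : ℝ → ℝ := fun r => grd (v r - u r) with hQ
  set h : ℝ → ℝ := fun r => C * (flu (u r) ^ 2 / ν ^ 3 + grd (u r) / ν) with hh
  have hYc : ContinuousOn Y (Set.Icc 0 T) := g4.add g5
  have hQc : ContinuousOn Q (Set.Icc 0 T) := g6
  have hhc : ContinuousOn h (Set.Icc 0 T) :=
    continuousOn_const.mul (((g1.pow 2).div_const _).add (g2.div_const _))
  have hY0 : ∀ r, 0 ≤ Y r := fun r => add_nonneg (hm_nonneg _) (mu_nonneg _)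
  have hQ0 : ∀ r, 0 ≤ Q r := fun r => grd_nonneg _
  have hh0 : ∀ r, 0 ≤ h r := fun r => by
    have := grd_nonneg (u r)
    rw [hh]
    positivity
  have hd : ∀ t ∈ Set.Icc 0 T, ∃ Y' : ℝ, HasDerivWithinAt Y Y' (Set.Icc 0 T) t ∧
      (Y t ≤ (c * ν) ^ 2 → Y' ≤ -ν * Q t + h t * Y t) :=
    hNE ν s T u v hν hs hT hu hv hR
  choose! Y' hY'1 hY'2 using hd
  have hhP := comp_cont hT hhc
  have hQP := comp_cont hT hQc
  have hder : ∀ t ∈ Set.Ioo 0 T, HasDerivAt Y (Y' t) t := fun t ht =>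
    (hY'1 t ⟨ht.1.le, ht.2.le⟩).hasDerivAt (Icc_mem_nhds ht.1 ht.2)
  set H : ℝ → ℝ := fun t => ∫ r in (0 : ℝ)..t, h (P T r) with hH
  have hHd : ∀ t, HasDerivAt H (h (P T t)) t := fun t => prim hhP t
  have hHc : Continuous H := continuous_iff_continuousAt.2 fun t => (hHd t).continuousAt
  have hHT : H T ≤ L := by
    have h1 : H T = C * ∫ r in (0 : ℝ)..T, (flu (u r) ^ 2 / ν ^ 3 + grd (u r) / ν) := by
      rw [hH]
      show ∫ r in (0 : ℝ)..T, h (P T r) = _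
      rw [int_eq h ⟨hT, le_rfl⟩, ← intervalIntegral.integral_const_mul]
    rw [h1]
    exact hL
  have hHmono : ∀ t ∈ Set.Icc 0 T, 0 ≤ H t ∧ H t ≤ L := by
    intro t ht
    refine ⟨intervalIntegral.integral_nonneg ht.1 fun r _ => hh0 _, ?_⟩
    have h1 : H T = H t + ∫ r in t..T, h (P T r) :=
      (intervalIntegral.integral_add_adjacent_intervals (hhP.intervalIntegrable _ _)
        (hhP.intervalIntegrable _ _)).symm
    have h2 : 0 ≤ ∫ r in t..T, h (P T r) :=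
      intervalIntegral.integral_nonneg ht.2 fun r _ => hh0 _
    linarith
  have hH0 : H 0 = 0 := intervalIntegral.integral_same
  -- Gronwall as long as `Y` is small
  have hgr : ∀ a ∈ Set.Icc 0 T, (∀ r ∈ Set.Ioo 0 a, Y r ≤ (c * ν) ^ 2) →
      ∀ t ∈ Set.Icc 0 a, Y t ≤ Y 0 * Real.exp L := by
    intro a ha hsm t ht
    have hta : t ∈ Set.Icc 0 T := ⟨ht.1, ht.2.trans ha.2⟩
    have h1 := anti' (a := a) (fun r => Y r * Real.exp (-H r))
      (fun r => Y' r * Real.exp (-H r) + Y r * (Real.exp (-H r) * (-h (P T r))))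
      ((hYc.mono (Set.Icc_subset_Icc_right ha.2)).mul
        (Real.continuous_exp.comp hHc.neg).continuousOn)
      (fun r hr => (hder r ⟨hr.1, hr.2.trans_le ha.2⟩).mul ((hHd r).neg.exp))
      (fun r hr => by
        have hr' : r ∈ Set.Icc 0 T := ⟨hr.1.le, hr.2.le.trans ha.2⟩
        have h2 := hY'2 r hr' (hsm r hr)
        have h3 := mul_nonneg hν.le (hQ0 r)
        rw [P_eq hr']
        have h4 : Y' r * Real.exp (-H r) + Y r * (Real.exp (-H r) * (-h r)) =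
            (Y' r - h r * Y r) * Real.exp (-H r) := by ring
        rw [h4]
        exact mul_nonpos_of_nonpos_of_nonneg (by linarith) (Real.exp_pos _).le) t ht
    have h1' : Y t * Real.exp (-H t) ≤ Y 0 * Real.exp (-H 0) := h1
    rw [hH0, neg_zero, Real.exp_zero, mul_one, Real.exp_neg, ← div_eq_mul_inv,
      div_le_iff₀ (Real.exp_pos _)] at h1'
    exact h1'.trans (mul_le_mul_of_nonneg_left (Real.exp_le_exp.2 (hHmono t hta).2) (hY0 0))
  -- `Y` is always small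
  have hall : ∀ t ∈ Set.Icc 0 T, Y t < (c * ν) ^ 2 := by
    by_contra hcon
    push Not at hcon
    obtain ⟨t1, ht1, ht1'⟩ := hcon
    have hcl : IsCompact (Set.Icc 0 T ∩ Y ⁻¹' Set.Ici ((c * ν) ^ 2)) :=
      isCompact_Icc.of_isClosed_subset (hYc.preimage_isClosed_of_isClosed isClosed_Icc isClosed_Ici)
        Set.inter_subset_left
    obtain ⟨a, ⟨ha1, ha2⟩, ha3⟩ := hcl.exists_isLeast ⟨t1, ht1, ht1'⟩
    have h1 := hgr a ha1 (fun r hr => by
      by_contra hc'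
      push Not at hc'
      have h2 := ha3 ⟨⟨hr.1.le, hr.2.le.trans ha1.2⟩, hc'.le⟩
      exact absurd h2 (not_le.2 hr.2)) a ⟨ha1.1, le_rfl⟩
    have h2 : (c * ν) ^ 2 ≤ Y a := ha2
    have h3 : Y 0 * Real.exp L < (c * ν) ^ 2 := hsmall
    linarith
  have hYle : ∀ t ∈ Set.Icc 0 T, Y t ≤ Y 0 * Real.exp L :=
    hgr T ⟨hT, le_rfl⟩ fun r hr => (hall r ⟨hr.1.le, hr.2.le⟩).le
  -- the integral of `Q`
  have h1 := anti (T := T) (fun t => Y t + ν * (∫ r in (0 : ℝ)..t, Q (P T r)) -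
      Y 0 * Real.exp L * H t)
    (fun t => Y' t + ν * Q (P T t) - Y 0 * Real.exp L * h (P T t))
    (fun t ht => ((hY'1 t ht).add (((prim hQP t).const_mul ν).hasDerivWithinAt)).sub
      (((hHd t).const_mul (Y 0 * Real.exp L)).hasDerivWithinAt))
    (fun t ht => by
      have h2 := hY'2 t ht (hall t ht).le
      have h3 := mul_le_mul_of_nonneg_left (hYle t ht) (hh0 t)
      rw [P_eq ht]
      linarith) T ⟨hT, le_rfl⟩
  have h1' : Y T + ν * (∫ r in (0 : ℝ)..T, Q (P T r)) - Y 0 * Real.exp L * H T ≤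
      Y 0 + ν * (∫ r in (0 : ℝ)..0, Q (P T r)) - Y 0 * Real.exp L * H 0 := h1
  rw [intervalIntegral.integral_same, hH0, mul_zero, mul_zero, add_zero, sub_zero,
    int_eq Q ⟨hT, le_rfl⟩] at h1'
  have h2 : Y 0 * Real.exp L * H T ≤ Y 0 * Real.exp L * L :=
    mul_le_mul_of_nonneg_left hHT (mul_nonneg (hY0 0) (Real.exp_pos _).le)
  have h3 := hY0 T
  have hL0 : 0 ≤ L := (hHmono 0 ⟨le_rfl, hT⟩).1.trans (hHmono 0 ⟨le_rfl, hT⟩).2
  have h4 : 1 + L * Real.exp L ≤ Real.exp (2 * L) := by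
    rw [two_mul, Real.exp_add]
    have h5 := Real.add_one_le_exp L
    have h6 : 1 ≤ Real.exp L := Real.one_le_exp hL0
    nlinarith [Real.exp_pos L]
  have h5 := mul_le_mul_of_nonneg_left h4 (hY0 0)
  show ∫ r in (0 : ℝ)..T, Q r ≤ Y 0 * Real.exp (2 * L) / ν
  rw [le_div_iff₀ hν]
  have h6 : Y 0 * (1 + L * Real.exp L) = Y 0 + Y 0 * Real.exp L * L := by ring
  linarith

end HB
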