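import Pool.Agent.H61.HB.Stmts

/-!
# Row TRS of the board `hbg`: the trilinear bound
-/

set_option autoImplicit false

namespace HB

namespace TRS

/-- Cauchy - Schwarz for series -/
theorem cs {ι : Type} (a b : ι → ℝ) (ha : ∀ i, 0 ≤ a i) (hb : ∀ i, 0 ≤ b i)
    (hsa : Summable fun i => a i ^ 2) (hsb : Summable fun i => b i ^ 2) :
    (Summable fun i => a i * b i) ∧
      ∑' i, a i * b i ≤ √(∑' i, a i ^ 2) * √(∑' i, b i ^ 2) := by
  have hpq : (2 : ℝ).HolderConjugate 2 := Real.HolderConjugate.two_two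
  have h := Real.summable_and_inner_le_Lp_mul_Lq_tsum_of_nonneg hpq ha hb
    (by simpa using hsa) (by simpa using hsb)
  refine ⟨h.1, h.2.trans (le_of_eq ?_)⟩
  rw [Real.sqrt_eq_rpow, Real.sqrt_eq_rpow]
  simp

theorem sq_nonneg' (k : Z2) : 0 ≤ sq k := by
  unfold sq
  positivity

theorem one_le_sq {k : Z2} (hk : k ≠ 0) : 1 ≤ sq k := by
  unfold sq
  have h : (1 : ℤ) ≤ k.1 ^ 2 + k.2 ^ 2 := by
    by_contra hc
    push Not at hc
    have h1 : k.1 ^ 2 = 0 := by nlinarith [sq_nonneg k.1, sq_nonneg k.2]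
    have h2 : k.2 ^ 2 = 0 := by nlinarith [sq_nonneg k.1, sq_nonneg k.2]
    apply hk
    ext
    · simpa using h1
    · simpa using h2
  exact_mod_cast h

end TRS

open TRS in
theorem trs_thm (hY : YNGStmt) (hS : SUMStmt) : TRSStmt := by
  intro g f hg hf
  set a : Z2 → ℝ := fun k => ‖off f k‖ with ha
  have ha0 : ∀ k, 0 ≤ a k := fun k => norm_nonneg _
  set b : Z2 → ℝ := fun k => (1 + sq k)⁻¹ with hb
  have hb0 : ∀ k, 0 ≤ b k := fun k => inv_nonneg.2 (by have := sq_nonneg' k; linarith)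
  set c : Z2 → ℝ := fun k => sq k * ‖f k‖ with hc
  have hc0 : ∀ k, 0 ≤ c k := fun k => mul_nonneg (sq_nonneg' k) (norm_nonneg _)
  have hb2 : (fun k => b k ^ 2) = fun k : Z2 => ((1 + sq k) ^ 2)⁻¹ := by
    funext k
    rw [hb]
    simp [inv_pow]
  have hsb : Summable fun k => b k ^ 2 := by
    rw [hb2]
    exact hS
  have hf2 : Summable fun k => (1 + sq k) ^ 2 * ‖f k‖ ^ 2 := by
    have h1 := hf
    unfold MemS at h1
    refine h1.congr fun k => ?_
    rw [Real.rpow_two]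
  have hc2 : (fun k => c k ^ 2) = fun k : Z2 => sq k ^ 2 * ‖f k‖ ^ 2 := by
    funext k
    rw [hc]
    simp only
    ring
  have hsc : Summable fun k => c k ^ 2 := by
    rw [hc2]
    refine Summable.of_nonneg_of_le (fun k => by positivity) (fun k => ?_) hf2
    have h1 := sq_nonneg' k
    have h2 : sq k ^ 2 ≤ (1 + sq k) ^ 2 := by nlinarith
    exact mul_le_mul_of_nonneg_right h2 (by positivity)
  have hab : ∀ k, a k ≤ 2 * (b k * c k) := by
    intro k
    by_cases hk : k = 0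
    · rw [ha]
      simp only [off, hk, if_true, norm_zero]
      have := mul_nonneg (hb0 0) (hc0 0)
      linarith
    · have h1 := one_le_sq hk
      have h2 : (0 : ℝ) < 1 + sq k := by linarith
      have h3 : a k = ‖f k‖ := by rw [ha]; simp [off, hk]
      rw [h3]
      have h4 : 2 * (b k * c k) = ((1 + sq k)⁻¹ * (2 * sq k)) * ‖f k‖ := by
        rw [hb, hc]
        ring
      rw [h4]
      have h5 : (1 : ℝ) ≤ (1 + sq k)⁻¹ * (2 * sq k) := by
        rw [inv_mul_eq_div, le_div_iff₀ h2]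
        linarith
      have := mul_le_mul_of_nonneg_right h5 (norm_nonneg (f k))
      linarith
  obtain ⟨hbc, hbc2⟩ := cs b c hb0 hc0 hsb hsc
  have hsa : Summable a := Summable.of_nonneg_of_le ha0 hab (hbc.mul_left 2)
  have hA : ∑' k, a k ≤ 2 * √cW * √(dsS f) := by
    have h1 : ∑' k, a k ≤ ∑' k, 2 * (b k * c k) :=
      hsa.tsum_le_tsum hab (hbc.mul_left 2)
    rw [tsum_mul_left] at h1
    have h2 : ∑' k, b k ^ 2 = cW := by rw [hb2]; rfl
    have h3 : ∑' k, c k ^ 2 = dsS f := by rw [hc2]; rfl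
    rw [h2, h3] at hbc2
    linarith
  -- `a ^ 2` is summable
  have hsa2 : Summable fun k => a k ^ 2 := by
    refine Summable.of_nonneg_of_le (fun k => by positivity) (fun k => ?_) hf2
    have h1 := sq_nonneg' k
    have h2 : a k ≤ ‖f k‖ := by
      rw [ha]
      simp only [off]
      split_ifs
      · simp
      · exact le_rfl
    have h3 : a k ^ 2 ≤ ‖f k‖ ^ 2 := pow_le_pow_left₀ (ha0 k) h2 2
    have h4 : (1 : ℝ) ≤ (1 + sq k) ^ 2 := by nlinarith
    have h5 : 0 ≤ ‖f k‖ ^ 2 := by positivity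
    nlinarith
  obtain ⟨hy1, hy2, hy3⟩ := hY a (fun k => ‖g k‖) ha0 (fun k => norm_nonneg _) hsa hg
  set w : Z2 → ℝ := fun k => ∑' l, a l * ‖g (k - l)‖ with hw
  have hw0 : ∀ k, 0 ≤ w k := fun k => tsum_nonneg fun l => mul_nonneg (ha0 l) (norm_nonneg _)
  obtain ⟨haw, haw2⟩ := cs a w ha0 hw0 hsa2 hy2
  have hF : ∀ x : Z2 × Z2, ‖(starRingEnd ℂ) (off f x.1) * g x.2 * off f (x.1 - x.2)‖ =
      a x.1 * (a (x.1 - x.2) * ‖g x.2‖) := by
    intro x
    rw [norm_mul, norm_mul, RCLike.norm_conj, ha]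
    ring
  have hswap : ∀ k : Z2, (fun l => a (k - l) * ‖g l‖) =
      (fun l => a l * ‖g (k - l)‖) ∘ (Equiv.subLeft k) := by
    intro k
    funext l
    simp [Equiv.subLeft]
  have hsw : ∀ k : Z2, Summable fun l => a (k - l) * ‖g l‖ := by
    intro k
    rw [hswap k]
    exact (Equiv.summable_iff _).2 (hy1 k)
  have hsw2 : ∀ k : Z2, ∑' l, a (k - l) * ‖g l‖ = w k := by
    intro k
    have h1 := Equiv.tsum_eq (Equiv.subLeft k) (fun l => a l * ‖g (k - l)‖)
    rw [hw]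
    simp only
    rw [← h1]
    refine tsum_congr fun l => ?_
    simp [Equiv.subLeft]
  have hsum : Summable fun x : Z2 × Z2 =>
      ‖(starRingEnd ℂ) (off f x.1) * g x.2 * off f (x.1 - x.2)‖ := by
    rw [funext hF]
    rw [summable_prod_of_nonneg (fun x => mul_nonneg (ha0 _)
      (mul_nonneg (ha0 _) (norm_nonneg _)))]
    refine ⟨fun k => (hsw k).mul_left (a k), ?_⟩
    have : (fun x : Z2 => ∑' y : Z2, a x * (a (x - y) * ‖g y‖)) = fun k => a k * w k := by
      funext k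
      rw [tsum_mul_left, hsw2]
    simp only
    rw [this]
    exact haw
  refine ⟨hsum, ?_⟩
  have h1 : ‖tr3 g f‖ ≤ ∑' x : Z2 × Z2,
      ‖(starRingEnd ℂ) (off f x.1) * g x.2 * off f (x.1 - x.2)‖ :=
    norm_tsum_le_tsum_norm hsum
  have h2 : ∑' x : Z2 × Z2, ‖(starRingEnd ℂ) (off f x.1) * g x.2 * off f (x.1 - x.2)‖ =
      ∑' k, a k * w k := by
    rw [hsum.tsum_prod]
    refine tsum_congr fun k => ?_
    rw [← hsw2 k, ← tsum_mul_left]
    exact tsum_congr fun l => hF (k, l)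
  rw [h2] at h1
  have h3 : √(∑' k, w k ^ 2) ≤ (∑' k, a k) * √(∑' k, ‖g k‖ ^ 2) := by
    have hA0 : 0 ≤ ∑' k, a k := tsum_nonneg ha0
    have h4 : (∑' k, a k) * √(∑' k, ‖g k‖ ^ 2) =
        √((∑' k, a k) ^ 2 * ∑' k, ‖g k‖ ^ 2) := by
      rw [Real.sqrt_mul (by positivity), Real.sqrt_sq hA0]
    rw [h4]
    exact Real.sqrt_le_sqrt hy3
  have h5 : √(∑' k, a k ^ 2) = √(flS f) := rfl
  rw [h5] at haw2
  have h6 : 0 ≤ √(flS f) := Real.sqrt_nonneg _
  have h7 : 0 ≤ √(∑' k, ‖g k‖ ^ 2) := Real.sqrt_nonneg _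
  calc ‖tr3 g f‖ ≤ √(flS f) * √(∑' k, w k ^ 2) := h1.trans haw2
    _ ≤ √(flS f) * ((2 * √cW * √(dsS f)) * √(∑' k, ‖g k‖ ^ 2)) := by
        refine mul_le_mul_of_nonneg_left (h3.trans ?_) h6
        exact mul_le_mul_of_nonneg_right hA h7
    _ = √(∑' l, ‖g l‖ ^ 2) * (2 * √cW * √(dsS f)) * √(flS f) := by ring

end HB
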