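import Pool.Agent.H61.HB.Stmts2
import Pool.Agent.H93.HB.TRM

/-!
# Row TRU of the board `hbg`: the bound for triangular solutions, uniformly in the direction

The proof is the proof of row TRM of helper93 with the constant written out.
-/

set_option autoImplicit false

namespace HB

open GR TM in
theorem tru_thm (hENE : ENEStmt) (hTRB : TRBStmt) (hTRC : TRCStmt) (hDIV : DIVStmt)
    (hLIN : LINStmt) : TRUStmt := by
  intro ν X hν hX
  obtain ⟨-, -, hLa, hLm⟩ := hLIN
  obtain ⟨-, -, hD3⟩ := hDIV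
  set κ : ℝ := cW * X / (2 * ν ^ 2) with hκ
  have hκ0 : 0 ≤ κ := div_nonneg (mul_nonneg cW_nonneg hX) (by positivity)
  refine ⟨X * Real.exp κ + X + ((X + κ * (X * Real.exp κ)) / ν + X / (2 * ν)), by positivity, ?_⟩
  intro m s T u hm hs hT hsol hRT hu0
  set M : ℝ := m.1 ^ 2 + m.2 ^ 2 with hMdef
  have hM : 0 < M := by
    by_contra hcon
    push Not at hcon
    apply hm
    have h1 : m.1 = 0 := by nlinarith [sq_nonneg m.1, sq_nonneg m.2]
    have h2 : m.2 = 0 := by nlinarith [sq_nonneg m.1, sq_nonneg m.2]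
    exact Prod.ext h1 h2
  set Y : ℝ := M * X with hY
  have hY0 : 0 ≤ Y := by positivity
  set γ : ℝ := cW / (ν * M) with hγ
  have hγ0 : 0 ≤ γ := div_nonneg cW_nonneg (by positivity)
  set I : ℝ := Y / (2 * ν) with hI
  have hI0 : 0 ≤ I := by positivity
  set E1 : ℝ := Real.exp (γ * I) with hE1
  have hE1p : 0 < E1 := Real.exp_pos _
  have hγI : γ * I = κ := by
    rw [hγ, hI, hY, hκ]
    field_simp
  have hKK : (Y * E1 + Y) / M + ((Y + γ * (Y * E1) * I) / ν + I) / M =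
      X * Real.exp κ + X + ((X + κ * (X * Real.exp κ)) / ν + X / (2 * ν)) := by
    have e1 : E1 = Real.exp κ := by rw [hE1, hγI]
    have e2 : γ * (Y * E1) * I = κ * (Y * Real.exp κ) := by
      rw [e1, ← hγI]
      ring
    rw [e2, e1, hI, hY]
    field_simp
  rw [← hKK]
  have hmem : ∀ t ∈ Set.Icc 0 T, Mem 2 (u t) := fun t ht j => mem_two hs (hsol.cts.1 t ht j)
  have h0 : (0 : ℝ) ∈ Set.Icc 0 T := ⟨le_rfl, hT⟩
  obtain ⟨cb, db⟩ := hENE ν s T u hν hs hT hsol ![m.1, m.2]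
  obtain ⟨ca, da⟩ := hENE ν s T u hν hs hT hsol ![-m.2, m.1]
  set Bf : ℝ → ℝ := fun r => flS (lin ![m.1, m.2] (u r)) with hBf
  set Af : ℝ → ℝ := fun r => flS (lin ![-m.2, m.1] (u r)) with hAf
  set Db : ℝ → ℝ := fun r => dsS (lin ![m.1, m.2] (u r)) with hDb
  set Da : ℝ → ℝ := fun r => dsS (lin ![-m.2, m.1] (u r)) with hDa
  have hmb : ∀ t ∈ Set.Icc 0 T, MemS 2 (lin ![m.1, m.2] (u t)) := fun t ht =>
    hLm _ _ _ (hmem t ht)
  have hma : ∀ t ∈ Set.Icc 0 T, MemS 2 (lin ![-m.2, m.1] (u t)) := fun t ht =>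
    hLm _ _ _ (hmem t ht)
  have hBn : ∀ t ∈ Set.Icc 0 T, 0 ≤ Bf t ∧ Bf t ≤ Db t := fun t ht =>
    ⟨(hD3 _ (hmb t ht)).1, (hD3 _ (hmb t ht)).2.1⟩
  have hAn : ∀ t ∈ Set.Icc 0 T, 0 ≤ Af t ∧ Af t ≤ Da t := fun t ht =>
    ⟨(hD3 _ (hma t ht)).1, (hD3 _ (hma t ht)).2.1⟩
  have hDbn : ∀ t ∈ Set.Icc 0 T, 0 ≤ Db t := fun t ht => (hBn t ht).1.trans (hBn t ht).2
  have hDan : ∀ t ∈ Set.Icc 0 T, 0 ≤ Da t := fun t ht => (hAn t ht).1.trans (hAn t ht).2
  have hfl : ∀ t ∈ Set.Icc 0 T, Bf t + Af t = M * flu (u t) := fun t ht =>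
    flu_eq m (hmem t ht) (hma t ht) (hmb t ht)
  have hds : ∀ t ∈ Set.Icc 0 T, Db t + Da t = M * dsq (u t) := fun t ht =>
    dsq_eq m (hmem t ht) (hma t ht) (hmb t ht)
  have hB0 : Bf 0 ≤ Y := by
    have h1 := hfl 0 h0
    have h2 := (hAn 0 h0).1
    have h3 := mul_le_mul_of_nonneg_left hu0 hM.le
    linarith
  have hA0 : Af 0 ≤ Y := by
    have h1 := hfl 0 h0
    have h2 := (hBn 0 h0).1
    have h3 := mul_le_mul_of_nonneg_left hu0 hM.le
    linarith
  -- the derivatives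
  have db' : ∀ t ∈ Set.Icc 0 T, HasDerivWithinAt Bf (-2 * ν * Db t) (Set.Icc 0 T) t := by
    intro t ht
    have h1 := db t ht
    rw [hLa _ _ _ (hmem t ht) (hmem t ht), hTRB m (u t) hm (hmem t ht) (hRT t ht).1 (hRT t ht).2,
      mul_zero, sub_zero] at h1
    exact h1
  have hcDb := comp_cont hT cb
  have hcDa := comp_cont hT ca
  -- the integral of `Db`
  have hIb : ∀ t ∈ Set.Icc 0 T, ∫ r in (0 : ℝ)..t, Db (P T r) ≤ I := by
    intro t ht
    have h1 : ∀ x ∈ Set.Icc 0 T, HasDerivWithinAt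
        (fun x => Bf x + 2 * ν * ∫ r in (0 : ℝ)..x, Db (P T r))
        (-2 * ν * Db x + 2 * ν * Db (P T x)) (Set.Icc 0 T) x := fun x hx =>
      (db' x hx).add (((prim hcDb x).const_mul (2 * ν)).hasDerivWithinAt)
    have h2 := anti _ _ h1 (fun x hx => by rw [P_eq hx]; linarith) t ht
    have h2' : Bf t + 2 * ν * ∫ r in (0 : ℝ)..t, Db (P T r) ≤
        Bf 0 + 2 * ν * ∫ r in (0 : ℝ)..0, Db (P T r) := h2
    rw [intervalIntegral.integral_same, mul_zero, add_zero] at h2'
    have h3 := (hBn t ht).1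
    rw [hI, le_div_iff₀ (by positivity)]
    linarith
  have hIbn : ∀ t ∈ Set.Icc 0 T, 0 ≤ ∫ r in (0 : ℝ)..t, Db (P T r) := fun t ht =>
    intervalIntegral.integral_nonneg ht.1 (fun r _ => hDbn _ (P_mem hT r))
  -- the decay of `B`
  have hBd : ∀ t ∈ Set.Icc 0 T, Bf t ≤ Y * Real.exp (-ν * t) := by
    intro t ht
    have h1 := dec Bf _ (fun _ => -2 * ν) continuous_const db' (fun x hx => by
      have := (hBn x hx).2
      nlinarith) t ht
    rw [intervalIntegral.integral_const, sub_zero, smul_eq_mul] at h1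
    refine h1.trans ?_
    have h2 : Real.exp (t * (-2 * ν)) ≤ Real.exp (-ν * t) := by
      refine Real.exp_le_exp.2 ?_
      have := mul_nonneg hν.le ht.1
      linarith
    exact mul_le_mul hB0 h2 (Real.exp_pos _).le hY0
  -- the inequality for `A`
  have hAle : ∀ t ∈ Set.Icc 0 T,
      -2 * ν * dsS (lin ![-m.2, m.1] (u t)) -
        2 * prd (lin ![-m.2, m.1] (u t)) (lin ![-m.2, m.1] (adv (u t) (u t))) ≤
      -ν * Da t + γ * Db t * Af t := by
    intro t ht
    have h1 := hTRC m (u t) hm (hmem t ht) (hRT t ht).1 (hRT t ht).2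
    rw [hLa _ _ _ (hmem t ht) (hmem t ht)]
    have h2 := amgm ν M cW (Da t) (Db t) (Af t) hν hM cW_nonneg (hDan t ht) (hDbn t ht)
      (hAn t ht).1
    have h3 : dsS (lin ![-m.2, m.1] (u t)) = Da t := rfl
    rw [h3]
    have h4 := h1.trans h2
    linarith
  have hAexp : ∀ t ∈ Set.Icc 0 T, Af t ≤ Y * E1 * Real.exp (-ν * t) := by
    intro t ht
    have hc : Continuous fun r => -ν + γ * Db (P T r) :=
      continuous_const.add (continuous_const.mul hcDb)
    have h1 := dec Af _ _ hc da (fun x hx => by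
      refine (hAle x hx).trans ?_
      have h2 := (hAn x hx).2
      rw [P_eq hx]
      nlinarith) t ht
    have h2 : ∫ r in (0 : ℝ)..t, (-ν + γ * Db (P T r)) =
        -ν * t + γ * ∫ r in (0 : ℝ)..t, Db (P T r) := by
      rw [intervalIntegral.integral_add (by simp) ((hcDb.const_mul γ).intervalIntegrable _ _),
        intervalIntegral.integral_const, intervalIntegral.integral_const_mul]
      simp only [smul_eq_mul]
      ring
    rw [h2, Real.exp_add] at h1
    have h3 : Real.exp (γ * ∫ r in (0 : ℝ)..t, Db (P T r)) ≤ E1 :=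
      Real.exp_le_exp.2 (mul_le_mul_of_nonneg_left (hIb t ht) hγ0)
    calc Af t ≤ Af 0 * (Real.exp (-ν * t) * Real.exp (γ * ∫ r in (0 : ℝ)..t, Db (P T r))) := h1
      _ ≤ Y * (Real.exp (-ν * t) * E1) := by
          refine mul_le_mul hA0 ?_ (by positivity) hY0
          exact mul_le_mul_of_nonneg_left h3 (Real.exp_pos _).le
      _ = Y * E1 * Real.exp (-ν * t) := by ring
  have hAmax : ∀ t ∈ Set.Icc 0 T, Af t ≤ Y * E1 := by
    intro t ht
    refine (hAexp t ht).trans ?_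
    have h1 : Real.exp (-ν * t) ≤ 1 := by
      rw [Real.exp_le_one_iff]
      have := mul_nonneg hν.le ht.1
      linarith
    have h2 : 0 ≤ Y * E1 := by positivity
    nlinarith
  -- the integral of `Da`
  have hIa : ∀ t ∈ Set.Icc 0 T, ∫ r in (0 : ℝ)..t, Da (P T r) ≤ (Y + γ * (Y * E1) * I) / ν := by
    intro t ht
    have h1 : ∀ x ∈ Set.Icc 0 T, HasDerivWithinAt
        (fun x => Af x + ν * (∫ r in (0 : ℝ)..x, Da (P T r)) -
          γ * (Y * E1) * ∫ r in (0 : ℝ)..x, Db (P T r))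
        ((-2 * ν * dsS (lin ![-m.2, m.1] (u x)) -
          2 * prd (lin ![-m.2, m.1] (u x)) (lin ![-m.2, m.1] (adv (u x) (u x)))) +
          ν * Da (P T x) - γ * (Y * E1) * Db (P T x)) (Set.Icc 0 T) x := fun x hx =>
      ((da x hx).add (((prim hcDa x).const_mul ν).hasDerivWithinAt)).sub
        (((prim hcDb x).const_mul (γ * (Y * E1))).hasDerivWithinAt)
    have h2 := anti _ _ h1 (fun x hx => by
      have h3 := hAle x hx
      rw [P_eq hx]
      have h4 : γ * Db x * Af x ≤ γ * (Y * E1) * Db x := by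
        have h5 := mul_le_mul_of_nonneg_left (hAmax x hx) (mul_nonneg hγ0 (hDbn x hx))
        linarith
      linarith) t ht
    have h2' : Af t + ν * (∫ r in (0 : ℝ)..t, Da (P T r)) -
        γ * (Y * E1) * (∫ r in (0 : ℝ)..t, Db (P T r)) ≤
        Af 0 + ν * (∫ r in (0 : ℝ)..0, Da (P T r)) -
        γ * (Y * E1) * (∫ r in (0 : ℝ)..0, Db (P T r)) := h2
    rw [intervalIntegral.integral_same, intervalIntegral.integral_same, mul_zero, mul_zero,
      add_zero, sub_zero] at h2'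
    have h3 := (hAn t ht).1
    have h4 : γ * (Y * E1) * (∫ r in (0 : ℝ)..t, Db (P T r)) ≤ γ * (Y * E1) * I :=
      mul_le_mul_of_nonneg_left (hIb t ht) (by positivity)
    rw [le_div_iff₀ hν]
    linarith
  intro t ht
  constructor
  · have h1 := hfl t ht
    have h2 := hAexp t ht
    have h3 := hBd t ht
    have h4 : flu (u t) ≤ (Y * E1 + Y) / M * Real.exp (-ν * t) := by
      rw [div_mul_eq_mul_div, le_div_iff₀ hM]
      linarith
    refine h4.trans (mul_le_mul_of_nonneg_right ?_ (Real.exp_pos _).le)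
    have : 0 ≤ ((Y + γ * (Y * E1) * I) / ν + I) / M := by positivity
    linarith
  · have h1 : ∫ r in (0 : ℝ)..t, dsq (u r) =
        ((∫ r in (0 : ℝ)..t, Da (P T r)) + ∫ r in (0 : ℝ)..t, Db (P T r)) / M := by
      rw [← intervalIntegral.integral_add (hcDa.intervalIntegrable _ _)
        (hcDb.intervalIntegrable _ _), ← intervalIntegral.integral_div]
      refine intervalIntegral.integral_congr (fun r hr => ?_)
      rw [Set.uIcc_of_le ht.1] at hr
      have hr' : r ∈ Set.Icc 0 T := ⟨hr.1, hr.2.trans ht.2⟩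
      show dsq (u r) = (Da (P T r) + Db (P T r)) / M
      rw [P_eq hr', eq_div_iff hM.ne']
      have := hds r hr'
      linarith
    rw [h1]
    have h2 : ((∫ r in (0 : ℝ)..t, Da (P T r)) + ∫ r in (0 : ℝ)..t, Db (P T r)) / M ≤
        ((Y + γ * (Y * E1) * I) / ν + I) / M :=
      div_le_div_of_nonneg_right (add_le_add (hIa t ht) (hIb t ht)) hM.le
    have h3 : 0 ≤ (Y * E1 + Y) / M := by positivity
    linarith

end HB
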