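import Pool.Agent.H61.HB.Stmts4
import Pool.Agent.H23.HB.GRF

/-!
Project HB, board fnd, row WTM (linear terms, means).
-/

set_option autoImplicit false

namespace HB

theorem wtm_co (i : Fin 2) (l : Z2) : |co i l| ≤ √(sq l) := by
  apply Real.abs_le_sqrt
  unfold co sq
  split_ifs
  · nlinarith [sq_nonneg (l.2 : ℝ)]
  · nlinarith [sq_nonneg (l.1 : ℝ)]

theorem wtm_sq (l : Z2) : sq (0 - l) = sq l := by
  unfold sq
  simp

theorem wtm_co' (i : Fin 2) (l : Z2) : |co i (0 - l)| ≤ √(sq l) := by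
  have h := wtm_co i (0 - l)
  rwa [wtm_sq] at h

theorem wtm_le (φ : V) (hφ : Mem 2 φ) (j : Fin 2) (l : Z2) : ‖φ j l‖ ≤ √(flu φ + mu φ) := by
  apply Real.le_sqrt_of_sq_le
  have h0 : ∀ j, 0 ≤ flS (φ j) := fun j => tsum_nonneg fun _ => by positivity
  have h1 : flS (φ j) ≤ flu φ :=
    Finset.single_le_sum (f := fun j => flS (φ j)) (fun j _ => h0 j) (Finset.mem_univ j)
  have h2 : ‖φ j 0‖ ^ 2 ≤ mu φ :=
    Finset.single_le_sum (f := fun j => ‖φ j 0‖ ^ 2) (fun j _ => by positivity)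
      (Finset.mem_univ j)
  have h3 : 0 ≤ flu φ := Finset.sum_nonneg fun j _ => h0 j
  have h4 : 0 ≤ mu φ := Finset.sum_nonneg fun j _ => by positivity
  by_cases h : l = 0
  · subst h
    linarith
  · have h5 : ‖off (φ j) l‖ ^ 2 ≤ flS (φ j) :=
      (GRF.sum3 (hφ j)).le_tsum l (fun _ _ => by positivity)
    have h6 : off (φ j) l = φ j l := by simp [off, h]
    rw [h6] at h5
    linarith

theorem wtm_trm (w : V) (f : Z2 → ℂ) (l : Z2) :
    ‖trm w f 0 l‖ ≤ (‖w 0 l‖ + ‖w 1 l‖) * √(sq l) * ‖f (0 - l)‖ := by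
  unfold trm
  rw [Fin.sum_univ_two]
  refine (norm_add_le _ _).trans ?_
  simp only [norm_mul, Complex.norm_I, Complex.norm_real, one_mul, Real.norm_eq_abs]
  have h0 := wtm_co' 0 l
  have h1 := wtm_co' 1 l
  have h2 : ‖w 0 l‖ * |co 0 (0 - l)| * ‖f (0 - l)‖ ≤ ‖w 0 l‖ * √(sq l) * ‖f (0 - l)‖ := by
    gcongr
  have h3 : ‖w 1 l‖ * |co 1 (0 - l)| * ‖f (0 - l)‖ ≤ ‖w 1 l‖ * √(sq l) * ‖f (0 - l)‖ := by
    gcongr
  nlinarith

theorem wtm_sum (A : V) (hA : Wn A) (j : Fin 2) :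
    HasSum (fun k => (1 + √(sq k)) * ‖A j k‖) (∑' k, (1 + √(sq k)) * ‖A j k‖) :=
  (hA j).hasSum

theorem wtm_part (A : V) (j : Fin 2) : ∑' k, (1 + √(sq k)) * ‖A j k‖ ≤ wn A :=
  Finset.single_le_sum (f := fun j => ∑' k, (1 + √(sq k)) * ‖A j k‖)
    (fun j _ => tsum_nonneg fun _ => by positivity) (Finset.mem_univ j)

theorem wtm_adv1 (φ A : V) (hφ : Mem 2 φ) (hA : Wn A) (j : Fin 2) :
    ‖adv A φ j 0‖ ≤ wn A * √(flu φ + mu φ) := by
  have h1 : HasSum (fun l => ((1 + √(sq l)) * ‖A 0 l‖ + (1 + √(sq l)) * ‖A 1 l‖) *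
      √(flu φ + mu φ)) (wn A * √(flu φ + mu φ)) := by
    have h := ((wtm_sum A hA 0).add (wtm_sum A hA 1)).mul_right (√(flu φ + mu φ))
    unfold wn
    rw [Fin.sum_univ_two]
    exact h
  refine tsum_of_norm_bounded h1 fun l => ?_
  refine (wtm_trm A (φ j) l).trans ?_
  have h2 := wtm_le φ hφ j (0 - l)
  have h3 : 0 ≤ √(sq l) := Real.sqrt_nonneg _
  have h4 : (‖A 0 l‖ + ‖A 1 l‖) * √(sq l) ≤
      (1 + √(sq l)) * ‖A 0 l‖ + (1 + √(sq l)) * ‖A 1 l‖ := by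
    nlinarith [norm_nonneg (A 0 l), norm_nonneg (A 1 l)]
  exact mul_le_mul h4 h2 (norm_nonneg _) (by positivity)

theorem wtm_adv2 (φ A : V) (hφ : Mem 2 φ) (hA : Wn A) (j : Fin 2) :
    ‖adv φ A j 0‖ ≤ 2 * (wn A * √(flu φ + mu φ)) := by
  have h0 : HasSum (fun l => (1 + √(sq (0 - l))) * ‖A j (0 - l)‖)
      (∑' k, (1 + √(sq k)) * ‖A j k‖) := by
    have h := (Equiv.subLeft (0 : Z2)).hasSum_iff.2 (wtm_sum A hA j)
    exact h
  have h1 := h0.mul_right (2 * √(flu φ + mu φ))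
  have h5 : ‖adv φ A j 0‖ ≤ (∑' k, (1 + √(sq k)) * ‖A j k‖) * (2 * √(flu φ + mu φ)) := by
    refine tsum_of_norm_bounded h1 fun l => ?_
    refine (wtm_trm φ (A j) l).trans ?_
    have h2 := wtm_le φ hφ 0 l
    have h3 := wtm_le φ hφ 1 l
    have h4 : 0 ≤ √(sq l) := Real.sqrt_nonneg _
    rw [wtm_sq]
    have h6 : (‖φ 0 l‖ + ‖φ 1 l‖) * (√(sq l) * ‖A j (0 - l)‖) ≤
        (2 * √(flu φ + mu φ)) * ((1 + √(sq l)) * ‖A j (0 - l)‖) := by
      refine mul_le_mul (by linarith) ?_ (by positivity) (by positivity)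
      exact mul_le_mul_of_nonneg_right (by linarith) (norm_nonneg _)
    calc (‖φ 0 l‖ + ‖φ 1 l‖) * √(sq l) * ‖A j (0 - l)‖ =
        (‖φ 0 l‖ + ‖φ 1 l‖) * (√(sq l) * ‖A j (0 - l)‖) := by ring
      _ ≤ _ := h6
      _ = _ := by ring
  have h7 := wtm_part A j
  have h8 : 0 ≤ √(flu φ + mu φ) := Real.sqrt_nonneg _
  calc ‖adv φ A j 0‖ ≤ _ := h5
    _ ≤ wn A * (2 * √(flu φ + mu φ)) := mul_le_mul_of_nonneg_right h7 (by positivity)
    _ = _ := by ring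

theorem wtm_mu (φ : V) (j : Fin 2) : ‖φ j 0‖ ≤ √(mu φ) := by
  apply Real.le_sqrt_of_sq_le
  exact Finset.single_le_sum (f := fun j => ‖φ j 0‖ ^ 2) (fun j _ => by positivity)
      (Finset.mem_univ j)

theorem wtm_thm : WTMStmt := by
  refine ⟨6, by norm_num, fun φ A hφ _ hA => ?_⟩
  have h1 : ∀ j : Fin 2, |((starRingEnd ℂ) (φ j 0) * (adv A φ j 0 + adv φ A j 0)).re| ≤
      √(mu φ) * (3 * (wn A * √(flu φ + mu φ))) := by
    intro j
    refine (Complex.abs_re_le_norm _).trans ?_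
    rw [norm_mul, RCLike.norm_conj]
    refine mul_le_mul (wtm_mu φ j) ?_ (norm_nonneg _) (Real.sqrt_nonneg _)
    refine (norm_add_le _ _).trans ?_
    have h2 := wtm_adv1 φ A hφ hA j
    have h3 := wtm_adv2 φ A hφ hA j
    linarith
  rw [Fin.sum_univ_two]
  refine (abs_add_le _ _).trans ?_
  have h2 := h1 0
  have h3 := h1 1
  calc _ ≤ √(mu φ) * (3 * (wn A * √(flu φ + mu φ))) +
      √(mu φ) * (3 * (wn A * √(flu φ + mu φ))) := add_le_add h2 h3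
    _ = _ := by ring

end HB
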